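import Pool.Agent.Lib.H83.ThOut

/-!
# Hyperplane sections of dilated cubes of maximal Gaussian measure

For every `n ≥ 2` and every `t ≥ 1.24` (so for all `t` above the König-Koldobsky threshold
`t₀ = 1.253…`) the maximal Gaussian measure `M_n(t)` of a central hyperplane section of the cube
`t Q_n = [-t/2, t/2]^n` is the larger one of the measures of the sections orthogonal to
`(1,1,0,…,0)/√2` and to `(1,…,1)/√n`. For every `n ≥ 3` there is exactly one threshold `T n`: below it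
only the first section is maximal, above it only the second one (up to signs and permutations of the
coordinates), at `t = T n` both. `T n` decreases strictly to `T∞`, which is given by an explicit
equation.
-/

namespace Pool.Agent.Results.MP_8ad8d2_gt.SectionThresholds

open MeasureTheory Set Filter
open scoped Real Topology

/-- The standard Gaussian measure on a linear subspace `H` of `ℝ^n`: density
`(2π)^(-dim H/2) exp(-|x|²/2)` with respect to Lebesgue measure on `H`. -/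
noncomputable def gaussianOn {n : ℕ} (H : Submodule ℝ (EuclideanSpace ℝ (Fin n))) : Measure H :=
  (volume : Measure H).withDensity
    (fun x => ENNReal.ofReal ((2 * π) ^ (-(Module.finrank ℝ H : ℝ) / 2) * Real.exp (-‖x‖ ^ 2 / 2)))

/-- `γ_{a^⊥}(t Q_n ∩ a^⊥)`, where `t Q_n = {x : |x_i| ≤ t/2 for all i}`. -/
noncomputable def sectionMeasure {n : ℕ} (t : ℝ) (a : EuclideanSpace ℝ (Fin n)) : ℝ :=
  ((gaussianOn (ℝ ∙ a)ᗮ) {x | ∀ i, |(x : EuclideanSpace ℝ (Fin n)) i| ≤ t / 2}).toReal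

/-- `a` is `(1,1,0,…,0)/√2` up to signs and a permutation of the coordinates. -/
def IsPair {n : ℕ} (a : EuclideanSpace ℝ (Fin n)) : Prop :=
  ∃ i j, i ≠ j ∧ |a i| = 1 / Real.sqrt 2 ∧ |a j| = 1 / Real.sqrt 2 ∧ ∀ k, k ≠ i → k ≠ j → a k = 0

/-- `a` is `(1,…,1)/√n` up to signs. -/
def IsDiag {n : ℕ} (a : EuclideanSpace ℝ (Fin n)) : Prop := ∀ i, |a i| = 1 / Real.sqrt n

/-- `γ₁([-x,x]) = (1/√(2π)) ∫_{-x}^x exp(-u²/2) du`. -/
noncomputable def gauss1 (x : ℝ) : ℝ :=
  (Real.sqrt (2 * π))⁻¹ * ∫ u in (-x)..x, Real.exp (-u ^ 2 / 2)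

/-- `(1/√(2π)) ∫_{-t/2}^{t/2} exp(-u²/2) cos(su) du`. -/
noncomputable def gaussCos (t s : ℝ) : ℝ :=
  (Real.sqrt (2 * π))⁻¹ * ∫ u in (-(t / 2))..(t / 2), Real.exp (-u ^ 2 / 2) * Real.cos (s * u)

/-- `γ₁([-t/√2, t/√2]) γ₁([-t/2, t/2])^(n-2)`. -/
noncomputable def pairValue (n : ℕ) (t : ℝ) : ℝ := gauss1 (t / Real.sqrt 2) * gauss1 (t / 2) ^ (n - 2)

/-- `√(n/(2π)) ∫_ℝ ((1/√(2π)) ∫_{-t/2}^{t/2} exp(-u²/2) cos(su) du)^n ds`. -/
noncomputable def diagValue (n : ℕ) (t : ℝ) : ℝ :=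
  Real.sqrt (n / (2 * π)) * ∫ s : ℝ, gaussCos t s ^ n

/-- variance of the standard Gaussian distribution conditioned on `[-t/2, t/2]` -/
noncomputable def condVar (t : ℝ) : ℝ :=
  (∫ u in (-(t / 2))..(t / 2), u ^ 2 * Real.exp (-u ^ 2 / 2)) /
    ∫ u in (-(t / 2))..(t / 2), Real.exp (-u ^ 2 / 2)

/-- `a^⊥` is a maximal hyperplane for `t Q_n`. -/
def IsMaximal {n : ℕ} (t : ℝ) (a : EuclideanSpace ℝ (Fin n)) : Prop :=
  ∀ b : EuclideanSpace ℝ (Fin n), ‖b‖ = 1 → sectionMeasure t b ≤ sectionMeasure t a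

theorem main (n : ℕ) (hn : 2 ≤ n) (t : ℝ) (ht : 124 / 100 ≤ t) :
    (∀ a : EuclideanSpace ℝ (Fin n), ‖a‖ = 1 → IsPair a → sectionMeasure t a = pairValue n t) ∧
    (∀ a : EuclideanSpace ℝ (Fin n), ‖a‖ = 1 → IsDiag a → sectionMeasure t a = diagValue n t) ∧
    IsGreatest {r | ∃ a : EuclideanSpace ℝ (Fin n), ‖a‖ = 1 ∧ sectionMeasure t a = r}
      (max (pairValue n t) (diagValue n t)) ∧
    ∀ a : EuclideanSpace ℝ (Fin n), ‖a‖ = 1 →
      (sectionMeasure t a = max (pairValue n t) (diagValue n t) ↔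
        (IsPair a ∧ diagValue n t ≤ pairValue n t) ∨ (IsDiag a ∧ pairValue n t ≤ diagValue n t)) := by
  have ht0 : 0 < t := by linarith
  have h1 : ∀ a : EuclideanSpace ℝ (Fin n), ‖a‖ = 1 → IsPair a → sectionMeasure t a = pairValue n t := by
    rintro a ha ⟨i, j, hij, hi, hj, hk⟩
    exact GCube.Fin_pair_sec ht0 ha hij hi hj hk
  have h2 : ∀ a : EuclideanSpace ℝ (Fin n), ‖a‖ = 1 → IsDiag a → sectionMeasure t a = diagValue n t :=
    fun a ha hd => GCube.Fin_diag_sec hn ht0 ha hd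
  have h3 := GCube.Fin_main hn ht
  have hs2 : Real.sqrt 2 ^ 2 = 2 := Real.sq_sqrt (by norm_num)
  have hn0 : (0 : ℝ) < n := by positivity
  have hsn : Real.sqrt n ^ 2 = n := Real.sq_sqrt hn0.le
  refine ⟨h1, h2, ⟨?_, ?_⟩, ?_⟩
  · rcases le_total (diagValue n t) (pairValue n t) with h | h
    · rw [max_eq_left h]
      set a : EuclideanSpace ℝ (Fin n) := WithLp.toLp 2 (fun k =>
        if k = (⟨0, by omega⟩ : Fin n) ∨ k = (⟨1, by omega⟩ : Fin n) then 1 / Real.sqrt 2 else 0) with ha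
      have hij : (⟨0, by omega⟩ : Fin n) ≠ ⟨1, by omega⟩ := by simp
      have hai : a ⟨0, by omega⟩ = 1 / Real.sqrt 2 := by simp [ha]
      have haj : a ⟨1, by omega⟩ = 1 / Real.sqrt 2 := by simp [ha]
      have hak : ∀ k, k ≠ (⟨0, by omega⟩ : Fin n) → k ≠ (⟨1, by omega⟩ : Fin n) → a k = 0 := by
        intro k h1 h2
        simp [ha, h1, h2]
      have hpos : (0 : ℝ) ≤ 1 / Real.sqrt 2 := by positivity
      have hnorm : ‖a‖ = 1 := by
        have hsq : ‖a‖ ^ 2 = 1 := by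
          rw [EuclideanSpace.real_norm_sq_eq,
            ← Finset.add_sum_erase Finset.univ _ (Finset.mem_univ (⟨0, by omega⟩ : Fin n)),
            ← Finset.add_sum_erase (Finset.univ.erase (⟨0, by omega⟩ : Fin n)) _
              (Finset.mem_erase.2 ⟨hij.symm, Finset.mem_univ (⟨1, by omega⟩ : Fin n)⟩)]
          rw [Finset.sum_eq_zero, hai, haj, div_pow, hs2]
          · norm_num
          · intro k hk'
            rw [Finset.mem_erase, Finset.mem_erase] at hk'
            rw [hak k hk'.2.1 hk'.1]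
            ring
        have h0 : 0 ≤ ‖a‖ := norm_nonneg a
        nlinarith [sq_nonneg (‖a‖ - 1)]
      exact ⟨a, hnorm, h1 a hnorm ⟨_, _, hij, by rw [hai, abs_of_nonneg hpos],
        by rw [haj, abs_of_nonneg hpos], hak⟩⟩
    · rw [max_eq_right h]
      set a : EuclideanSpace ℝ (Fin n) := WithLp.toLp 2 (fun _ => 1 / Real.sqrt n) with ha
      have hak : ∀ k, a k = 1 / Real.sqrt n := fun k => by simp [ha]
      have hpos : (0 : ℝ) ≤ 1 / Real.sqrt n := by positivity
      have hnorm : ‖a‖ = 1 := by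
        have hsq : ‖a‖ ^ 2 = 1 := by
          rw [EuclideanSpace.real_norm_sq_eq]
          simp only [hak, div_pow, hsn]
          simp
          field_simp
        have h0 : 0 ≤ ‖a‖ := norm_nonneg a
        nlinarith [sq_nonneg (‖a‖ - 1)]
      exact ⟨a, hnorm, h2 a hnorm fun i => by rw [hak, abs_of_nonneg hpos]⟩
  · rintro r ⟨a, ha, rfl⟩
    exact (h3 a ha).1
  · intro a ha
    constructor
    · intro heq
      rcases (h3 a ha).2 heq with hp | hd
      · left
        refine ⟨hp, ?_⟩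
        rw [← h1 a ha hp, heq]
        exact le_max_right _ _
      · right
        refine ⟨hd, ?_⟩
        rw [← h2 a ha hd, heq]
        exact le_max_left _ _
    · rintro (⟨hp, h⟩ | ⟨hd, h⟩)
      · rw [h1 a ha hp, max_eq_left h]
      · rw [h2 a ha hd, max_eq_right h]

theorem isMaximal_iff {n : ℕ} (hn : 2 ≤ n) {t : ℝ} (ht : 124 / 100 ≤ t) {a : EuclideanSpace ℝ (Fin n)}
    (ha : ‖a‖ = 1) : IsMaximal t a ↔
      (IsPair a ∧ diagValue n t ≤ pairValue n t) ∨ (IsDiag a ∧ pairValue n t ≤ diagValue n t) := by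
  obtain ⟨_, _, h3, h4⟩ := main n hn t ht
  rw [← h4 a ha]
  constructor
  · intro h
    refine le_antisymm (h3.2 ⟨a, ha, rfl⟩) ?_
    obtain ⟨b, hb, hb2⟩ := h3.1
    rw [← hb2]
    exact h b hb
  · intro h b hb
    rw [h]
    exact h3.2 ⟨b, hb, rfl⟩

theorem result :
    (∀ n : ℕ, 2 ≤ n → ∀ t : ℝ, 124 / 100 ≤ t →
      IsGreatest {r | ∃ a : EuclideanSpace ℝ (Fin n), ‖a‖ = 1 ∧ sectionMeasure t a = r}
        (max (pairValue n t) (diagValue n t)) ∧
      ∀ a : EuclideanSpace ℝ (Fin n), ‖a‖ = 1 →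
        (IsPair a → sectionMeasure t a = pairValue n t) ∧ (IsDiag a → sectionMeasure t a = diagValue n t)) ∧
    (∀ t : ℝ, 124 / 100 ≤ t → diagValue 2 t = pairValue 2 t ∧
      ∀ a : EuclideanSpace ℝ (Fin 2), ‖a‖ = 1 → (IsMaximal t a ↔ IsPair a)) ∧
    ∃ (T : ℕ → ℝ) (L : ℝ), 124 / 100 < L ∧
      (∀ n : ℕ, 3 ≤ n → L < T (n + 1) ∧ T (n + 1) < T n ∧ T n < 28 / 10) ∧
      Tendsto T atTop (𝓝 L) ∧
      (∀ t : ℝ, 124 / 100 ≤ t →
        (L < t ↔ Real.sqrt (condVar t) * gauss1 (t / Real.sqrt 2) < gauss1 (t / 2) ^ 2)) ∧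
      ∀ n : ℕ, 3 ≤ n → ∀ t : ℝ, 124 / 100 ≤ t →
        (t < T n → diagValue n t < pairValue n t ∧
          ∀ a : EuclideanSpace ℝ (Fin n), ‖a‖ = 1 → (IsMaximal t a ↔ IsPair a)) ∧
        (t = T n → diagValue n t = pairValue n t ∧
          ∀ a : EuclideanSpace ℝ (Fin n), ‖a‖ = 1 → (IsMaximal t a ↔ IsPair a ∨ IsDiag a)) ∧
        (T n < t → pairValue n t < diagValue n t ∧
          ∀ a : EuclideanSpace ℝ (Fin n), ‖a‖ = 1 → (IsMaximal t a ↔ IsDiag a)) := by
  have hs2 : Real.sqrt 2 ^ 2 = 2 := Real.sq_sqrt (by norm_num)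
  refine ⟨fun n hn t ht => ?_, fun t ht => ?_, ?_⟩
  · obtain ⟨h1, h2, h3, _⟩ := main n hn t ht
    exact ⟨h3, fun a ha => ⟨h1 a ha, h2 a ha⟩⟩
  · have hpd : ∀ a : EuclideanSpace ℝ (Fin 2), IsPair a ↔ IsDiag a := by
      intro a
      constructor
      · rintro ⟨i, j, hij, hi, hj, _⟩ k
        have hk : k = i ∨ k = j := by
          fin_cases i <;> fin_cases j <;> fin_cases k <;> simp_all
        rcases hk with rfl | rfl
        · rw [hi]; norm_num
        · rw [hj]; norm_num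
      · intro h
        refine ⟨0, 1, by decide, ?_, ?_, ?_⟩
        · rw [h 0]; norm_num
        · rw [h 1]; norm_num
        · intro k h0 h1
          fin_cases k
          · exact absurd rfl h0
          · exact absurd rfl h1
    have heq : diagValue 2 t = pairValue 2 t := by
      obtain ⟨h1, h2, _, _⟩ := main 2 le_rfl t ht
      set a : EuclideanSpace ℝ (Fin 2) := WithLp.toLp 2 (fun _ => 1 / Real.sqrt 2) with ha
      have hak : ∀ k, a k = 1 / Real.sqrt 2 := fun k => by simp [ha]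
      have hpos : (0 : ℝ) ≤ 1 / Real.sqrt 2 := by positivity
      have hd : IsDiag a := fun i => by rw [hak, abs_of_nonneg hpos]; norm_num
      have hnorm : ‖a‖ = 1 := by
        have hsq : ‖a‖ ^ 2 = 1 := by
          rw [EuclideanSpace.real_norm_sq_eq]
          simp only [hak, div_pow, hs2]
          simp
        have h0 : 0 ≤ ‖a‖ := norm_nonneg a
        nlinarith [sq_nonneg (‖a‖ - 1)]
      rw [← h2 a hnorm hd, ← h1 a hnorm ((hpd a).2 hd)]
    refine ⟨heq, fun a ha => ?_⟩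
    rw [isMaximal_iff le_rfl ht ha, ← hpd a, heq]
    simp
  · obtain ⟨T, L, h1, h2, h3, h4, h5⟩ := GCube.Fin_thresholds_t
    refine ⟨T, L, h1, fun n hn => ?_, h3, fun t ht => h4 t ht, fun n hn t ht => ?_⟩
    · obtain ⟨_, b, c⟩ := h2 n hn
      exact ⟨(h2 (n + 1) (by omega)).1, c, b⟩
    · obtain ⟨a1, a2, a3⟩ := h5 n hn t ht
      have e1 : GCube.Fin_diag n t = diagValue n t := rfl
      have e2 : GCube.Fin_pair n t = pairValue n t := rfl
      rw [e1, e2] at a1 a2 a3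
      refine ⟨fun h => ⟨a1 h, fun a ha => ?_⟩, fun h => ⟨a2 h, fun a ha => ?_⟩, fun h => ⟨a3 h, fun a ha => ?_⟩⟩
      · rw [isMaximal_iff (by omega) ht ha]
        have h6 := a1 h
        constructor
        · rintro (h7 | h7)
          · exact h7.1
          · exact absurd h7.2 (not_le.2 h6)
        · intro h7
          exact Or.inl ⟨h7, h6.le⟩
      · rw [isMaximal_iff (by omega) ht ha, a2 h]
        simp
      · rw [isMaximal_iff (by omega) ht ha]
        have h6 := a3 h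
        constructor
        · rintro (h7 | h7)
          · exact absurd h7.2 (not_le.2 h6)
          · exact h7.1
        · intro h7
          exact Or.inr ⟨h7, h6.le⟩

end Pool.Agent.Results.MP_8ad8d2_gt.SectionThresholds
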